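import Pool.Agent.Helper93.TH3.StD

/-!
# TH3 MODULE LWT: elementary lowering facts
-/

set_option autoImplicit false

namespace Pool.Agent.Helper55.TH3

open Pool.Agent.Helper78.W3 (tr Fn3 Tm opL op3 mulL negL Wd3 dX dY oD oN Lw sS M5 bb3 S3PlA S3Trm S3Low0 S3Nf S3Exp S3Lw1 S3Bb)
open Pool.Agent.Helper93.TH3

/-! ### Identities in a ring -/

private theorem ring1 {R : Type*} [Ring R] (A B X Y : R) :
    A * B - 1 - X - Y = (A - 1 - X) * B + (1 + X) * (B - 1 - Y) + X * Y := by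
  noncomm_ring

private theorem ring2 {R : Type*} [Ring R] (P D A B X Y : R) :
    P - 1 - X - Y = (P - D * A * B) + ((D - 1) * (A * B) + (A * B - 1 - X - Y)) := by
  noncomm_ring

private theorem ring3 {R : Type*} [Ring R] (A O X : R) :
    A * (1 + O) - 1 - (X + O) = (A - 1 - X) * (1 + O) + X * O := by
  noncomm_ring


private theorem ring5 {R : Type*} [Ring R] (D N : R) (h : D * N = -(1 + D) * N * D) :
    D * N + N * D = -(D * N * D) := by
  have e : -(1 + D) * N * D + N * D = -(D * N * D) := by noncomm_ring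
  rw [← h] at e
  exact e

section

variable {r s : ℕ}

private theorem neg1_smul (O : Module.End (ZMod 3) (Fn3 (3 ^ r) (3 ^ s))) :
    (-1 : ZMod 3) • O = -O := by
  apply LinearMap.ext
  intro F
  funext x y
  change (-1 : ZMod 3) * (O F x y) = -(O F x y)
  ring

private theorem neg_mul_end (O O' : Module.End (ZMod 3) (Fn3 (3 ^ r) (3 ^ s))) :
    (-O) * O' = -(O * O') := rfl

private theorem mul_neg_end (O O' : Module.End (ZMod 3) (Fn3 (3 ^ r) (3 ^ s))) :
    O * (-O') = -(O * O') := by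
  apply LinearMap.ext
  intro F
  exact map_neg O (O' F)

private theorem lw_neg (hL : S3Low0) {O : Module.End (ZMod 3) (Fn3 (3 ^ r) (3 ^ s))} {k : ℤ}
    (h : Lw O k) : Lw (-O) k := by
  have := (hL r s).2.2.1 O (-1) k h
  rwa [neg1_smul] at this

private theorem lw_add (hL : S3Low0) {O O' : Module.End (ZMod 3) (Fn3 (3 ^ r) (3 ^ s))} {k : ℤ}
    (h : Lw O k) (h' : Lw O' k) : Lw (O + O') k := (hL r s).2.1 O O' k h h'

private theorem lw_sub (hL : S3Low0) {O O' : Module.End (ZMod 3) (Fn3 (3 ^ r) (3 ^ s))} {k : ℤ}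
    (h : Lw O k) (h' : Lw O' k) : Lw (O - O') k := by
  rw [sub_eq_add_neg]
  exact lw_add hL h (lw_neg hL h')

private theorem lw_mul (hL : S3Low0) {O O' : Module.End (ZMod 3) (Fn3 (3 ^ r) (3 ^ s))}
    {k k' l : ℤ} (h : Lw O k) (h' : Lw O' k') (hl : k + k' = l) : Lw (O * O') l := by
  subst hl
  exact (hL r s).1 O O' k k' h h'

private theorem lw_mono (hL : S3Low0) {O : Module.End (ZMod 3) (Fn3 (3 ^ r) (3 ^ s))}
    {k k' : ℤ} (h : Lw O k) (hk : k' ≤ k) : Lw O k' := (hL r s).2.2.2.1 O k k' hk h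

private theorem lw_smul (hL : S3Low0) {O : Module.End (ZMod 3) (Fn3 (3 ^ r) (3 ^ s))} {k : ℤ}
    (c : ZMod 3) (h : Lw O k) : Lw (c • O) k := (hL r s).2.2.1 O c k h

private theorem lw_one (hL : S3Low0) :
    Lw (1 : Module.End (ZMod 3) (Fn3 (3 ^ r) (3 ^ s))) 0 := (hL r s).2.2.2.2.2.1

private theorem lw_dX (hL : S3Low0) :
    Lw (dX : Module.End (ZMod 3) (Fn3 (3 ^ r) (3 ^ s))) 1 := (hL r s).2.2.2.2.2.2.1

private theorem lw_dY (hL : S3Low0) :
    Lw (dY : Module.End (ZMod 3) (Fn3 (3 ^ r) (3 ^ s))) 1 := (hL r s).2.2.2.2.2.2.2.1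

private theorem comm (hL : S3Low0) :
    (dX * dY : Module.End (ZMod 3) (Fn3 (3 ^ r) (3 ^ s))) = dY * dX := (hL r s).2.2.2.2.2.2.2.2.1

private theorem lw_pow (hL : S3Low0) {O : Module.End (ZMod 3) (Fn3 (3 ^ r) (3 ^ s))}
    (h : Lw O 0) (n : ℕ) : Lw (O ^ n) 0 := by
  induction n with
  | zero => rw [pow_zero]; exact lw_one hL
  | succ n ih => rw [pow_succ]; exact lw_mul hL ih h (by norm_num)

private theorem lw_one_add (hL : S3Low0) {O : Module.End (ZMod 3) (Fn3 (3 ^ r) (3 ^ s))}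
    (h : Lw O 1) : Lw (1 + O) 0 := lw_add hL (lw_one hL) (lw_mono hL h (by norm_num))

/-- `(1 + O)^n = 1 + n O` up to lowering `2`. -/
private theorem lw_binom (hL : S3Low0) {O : Module.End (ZMod 3) (Fn3 (3 ^ r) (3 ^ s))}
    (h : Lw O 1) (n : ℕ) : Lw ((1 + O) ^ n - 1 - (n : ZMod 3) • O) 2 := by
  induction n with
  | zero =>
    have e : (1 + O) ^ 0 - 1 - ((0 : ℕ) : ZMod 3) • O = 0 := by
      rw [pow_zero, Nat.cast_zero, zero_smul, sub_self, sub_zero]
    rw [e]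
    have := lw_smul hL (0 : ZMod 3) (lw_mul hL h h (by norm_num : (1 : ℤ) + 1 = 2))
    rwa [zero_smul] at this
  | succ n ih =>
    have e : ((n + 1 : ℕ) : ZMod 3) • O = (n : ZMod 3) • O + O := by
      rw [Nat.cast_add, Nat.cast_one, add_smul, one_smul]
    rw [pow_succ, e, ring3]
    exact lw_add hL (lw_mul hL ih (lw_one_add hL h) (by norm_num))
      (lw_mul hL (lw_smul hL _ h) h (by norm_num))

private theorem lw_powD (hL : S3Low0) {O : Module.End (ZMod 3) (Fn3 (3 ^ r) (3 ^ s))}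
    (h : Lw (O - 1) 2) (n : ℕ) : Lw (O ^ n - 1) 2 ∧ Lw (O ^ n) 0 := by
  have h0 : Lw O 0 := by
    have := lw_add hL (lw_mono hL h (by norm_num : (0 : ℤ) ≤ 2)) (lw_one hL)
    rwa [sub_add_cancel] at this
  refine ⟨?_, lw_pow hL h0 n⟩
  induction n with
  | zero =>
    rw [pow_zero, sub_self]
    have := lw_smul hL (0 : ZMod 3) h
    rwa [zero_smul] at this
  | succ n ih =>
    have e : O ^ (n + 1) - 1 = (O ^ n - 1) * O + (O - 1) := by
      rw [pow_succ, sub_mul, one_mul, sub_add_sub_cancel]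
    rw [e]
    exact lw_add hL (lw_mul hL ih h0 (by norm_num)) h

/-- The normal form up to lowering `2`. -/
private theorem nf2 (hL : S3Low0) (hN : S3Nf) (a b c d : ℤ) (m β γ : ℕ) (ha : ¬ 3 ∣ a)
    (hd : ¬ 3 ∣ d) (hm : (9 : ℤ) ∣ d * 4 ^ m - a) (hb : (9 : ℤ) ∣ b - β * a)
    (hc : (9 : ℤ) ∣ c - γ * d) :
    Lw (op3 a b c d - 1 - (β : ZMod 3) • dX - (γ : ZMod 3) • dY :
      Module.End (ZMod 3) (Fn3 (3 ^ r) (3 ^ s))) 2 := by
  have h7 := (hN r s).2 a b c d m β γ ha hd hm hb hc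
  obtain ⟨hD, -⟩ := lw_powD hL (hN r s).1 m
  rw [ring2 _ (oD ^ m) ((1 + dX) ^ β) ((1 + dY) ^ γ)]
  refine lw_add hL (lw_mono hL h7 (by norm_num)) (lw_add hL (lw_mul hL hD
    (lw_mul hL (lw_pow hL (lw_one_add hL (lw_dX hL)) β)
      (lw_pow hL (lw_one_add hL (lw_dY hL)) γ) (by norm_num : (0 : ℤ) + 0 = 0))
      (by norm_num)) ?_)
  rw [ring1]
  refine lw_add hL (lw_add hL (lw_mul hL (lw_binom hL (lw_dX hL) β)
    (lw_pow hL (lw_one_add hL (lw_dY hL)) γ) (by norm_num))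
    (lw_mul hL (lw_one_add hL (lw_smul hL _ (lw_dX hL))) (lw_binom hL (lw_dY hL) γ)
      (by norm_num))) ?_
  exact lw_mul hL (lw_smul hL _ (lw_dX hL)) (lw_smul hL _ (lw_dY hL)) (by norm_num)

/-! ### The operator `oN` -/

private theorem oN_apply (F : Fn3 (3 ^ r) (3 ^ s)) (x : ZMod (3 ^ r)) (y : ZMod (3 ^ s)) :
    oN F x y = F (-x) (-y) := by
  change F ((((0 : ℤ) : ZMod (3 ^ r)) + ((1 : ℤ) : ZMod (3 ^ r)) * x) *
    (((-1 : ℤ) : ZMod (3 ^ r)) + 9 * ((0 : ℤ) : ZMod (3 ^ r)) * x)⁻¹)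
    ((((0 : ℤ) : ZMod (3 ^ s)) + ((-1 : ℤ) : ZMod (3 ^ s)) * y) *
    (((1 : ℤ) : ZMod (3 ^ s)) + 9 * ((0 : ℤ) : ZMod (3 ^ s)) * y)⁻¹) = F (-x) (-y)
  have e1 : (((-1 : ℤ) : ZMod (3 ^ r)) + 9 * ((0 : ℤ) : ZMod (3 ^ r)) * x)⁻¹ = -1 := by
    rw [Int.cast_zero, mul_zero, zero_mul, add_zero, Int.cast_neg, Int.cast_one,
      ZMod.inv_neg_one]
  have e2 : (((1 : ℤ) : ZMod (3 ^ s)) + 9 * ((0 : ℤ) : ZMod (3 ^ s)) * y)⁻¹ = 1 := by
    rw [Int.cast_zero, mul_zero, zero_mul, add_zero, Int.cast_one, ZMod.inv_one]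
  rw [e1, e2]
  congr 1
  · rw [Int.cast_zero, Int.cast_one]; ring
  · rw [Int.cast_zero, Int.cast_neg, Int.cast_one]; ring

private theorem dX_apply (F : Fn3 (3 ^ r) (3 ^ s)) (x : ZMod (3 ^ r)) (y : ZMod (3 ^ s)) :
    dX F x y = F (x + 1) y - F x y := rfl

private theorem dY_apply (F : Fn3 (3 ^ r) (3 ^ s)) (x : ZMod (3 ^ r)) (y : ZMod (3 ^ s)) :
    dY F x y = F x (y + 1) - F x y := rfl

private theorem dX_oN : (dX * oN : Module.End (ZMod 3) (Fn3 (3 ^ r) (3 ^ s))) =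
    -(1 + dX) * oN * dX := by
  apply LinearMap.ext
  intro F
  funext x y
  rw [Module.End.mul_apply, Module.End.mul_apply, Module.End.mul_apply, neg_add, LinearMap.add_apply,
    LinearMap.neg_apply, LinearMap.neg_apply, Module.End.one_apply, Pi.add_apply, Pi.add_apply,
    Pi.neg_apply, Pi.neg_apply, Pi.neg_apply, Pi.neg_apply]
  rw [dX_apply, dX_apply, oN_apply, oN_apply, oN_apply, oN_apply, dX_apply, dX_apply]
  have e : -(x + 1) + 1 = -x := by ring
  rw [e]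
  ring

private theorem dY_oN : (dY * oN : Module.End (ZMod 3) (Fn3 (3 ^ r) (3 ^ s))) =
    -(1 + dY) * oN * dY := by
  apply LinearMap.ext
  intro F
  funext x y
  rw [Module.End.mul_apply, Module.End.mul_apply, Module.End.mul_apply, neg_add, LinearMap.add_apply,
    LinearMap.neg_apply, LinearMap.neg_apply, Module.End.one_apply, Pi.add_apply, Pi.add_apply,
    Pi.neg_apply, Pi.neg_apply, Pi.neg_apply, Pi.neg_apply]
  rw [dY_apply, dY_apply, oN_apply, oN_apply, oN_apply, oN_apply, dY_apply, dY_apply]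
  have e : -(y + 1) + 1 = -y := by ring
  rw [e]
  ring

private theorem comm1 {R : Type*} [Ring R] (D N : R) (h : D * N = N * D) :
    Commute D (-(1 + N)) := by
  have hc : Commute D N := h
  exact ((Commute.one_right D).add_right hc).neg_right

private theorem pow_mul_oN {R : Type*} [Ring R] (D N : R) (h : D * N = -(1 + D) * N * D) (i : ℕ) :
    D ^ i * N = (-(1 + D)) ^ i * N * D ^ i := by
  have hc : Commute D (-(1 + D)) := ((Commute.one_right D).add_right (Commute.refl D)).neg_right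
  induction i with
  | zero => rw [pow_zero, pow_zero, one_mul, mul_one]
  | succ i ih =>
    rw [pow_succ' D i, mul_assoc D, ih]
    have h1 : D * (-(1 + D)) ^ i = (-(1 + D)) ^ i * D := (hc.pow_right i).eq
    calc D * ((-(1 + D)) ^ i * N * D ^ i) = (D * (-(1 + D)) ^ i) * N * D ^ i := by
          simp only [mul_assoc]
      _ = (-(1 + D)) ^ i * (D * N) * D ^ i := by rw [h1]; simp only [mul_assoc]
      _ = (-(1 + D)) ^ (i + 1) * N * (D * D ^ i) := by
          rw [h, pow_succ]; simp only [mul_assoc]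

private theorem lw_oN (hL : S3Low0) :
    Lw (oN : Module.End (ZMod 3) (Fn3 (3 ^ r) (3 ^ s))) 0 := by
  intro d F hF i j hij
  rw [sub_zero] at hij
  have hc : Commute (dX : Module.End (ZMod 3) (Fn3 (3 ^ r) (3 ^ s))) (-(1 + dY)) :=
    comm1 _ _ (comm hL)
  have e1 := (hc.pow_pow i j).eq
  have e2 := pow_mul_oN _ _ (dX_oN (r := r) (s := s)) i
  have e3 := pow_mul_oN _ _ (dY_oN (r := r) (s := s)) j
  have e : (dX ^ i * dY ^ j : Module.End (ZMod 3) (Fn3 (3 ^ r) (3 ^ s))) * oN =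
      ((-(1 + dY)) ^ j * (-(1 + dX)) ^ i * oN) * (dX ^ i * dY ^ j) := by
    calc (dX ^ i * dY ^ j : Module.End (ZMod 3) (Fn3 (3 ^ r) (3 ^ s))) * oN
        = dX ^ i * (dY ^ j * oN) := mul_assoc _ _ _
      _ = (dX ^ i * (-(1 + dY)) ^ j) * oN * dY ^ j := by rw [e3]; simp only [mul_assoc]
      _ = (-(1 + dY)) ^ j * (dX ^ i * oN) * dY ^ j := by rw [e1]; simp only [mul_assoc]
      _ = _ := by rw [e2]; simp only [mul_assoc]
  rw [← Module.End.mul_apply, e, Module.End.mul_apply, hF i j hij, map_zero]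

private theorem lw_anti (hL : S3Low0) {D : Module.End (ZMod 3) (Fn3 (3 ^ r) (3 ^ s))}
    (h1 : Lw D 1) (h : D * oN = -(1 + D) * oN * D) : Lw (oN * D + D * oN) 2 := by
  have key : oN * D + D * oN = -(D * oN * D) := by
    rw [add_comm]
    exact ring5 (R := Module.End (ZMod 3) (Fn3 (3 ^ r) (3 ^ s))) D oN h
  rw [key]
  exact lw_neg hL (lw_mul hL (lw_mul hL h1 (lw_oN hL) (by norm_num : (1 : ℤ) + 0 = 1)) h1
    (by norm_num))

/-- The leading form of `oN`. -/
private theorem oN_lead (hL : S3Low0) (d : ℤ) (F : Fn3 (3 ^ r) (3 ^ s)) (hF : F ∈ Wd3 d)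
    (i j : ℕ) (hij : (i : ℤ) + j = d) :
    (dX ^ i * dY ^ j : Module.End (ZMod 3) (Fn3 (3 ^ r) (3 ^ s))) (oN F) =
      (-1 : ZMod 3) ^ (i + j) • (dX ^ i * dY ^ j : Module.End (ZMod 3) (Fn3 (3 ^ r) (3 ^ s))) F := by
  have hcXY : Commute (dX : Module.End (ZMod 3) (Fn3 (3 ^ r) (3 ^ s))) dY := comm hL
  have hc : Commute (dX : Module.End (ZMod 3) (Fn3 (3 ^ r) (3 ^ s))) (-(1 + dY)) :=
    comm1 _ _ (comm hL)
  have e1 := (hc.pow_pow i j).eq
  have e2 := pow_mul_oN _ _ (dX_oN (r := r) (s := s)) i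
  have e3 := pow_mul_oN _ _ (dY_oN (r := r) (s := s)) j
  have e : (dX ^ i * dY ^ j : Module.End (ZMod 3) (Fn3 (3 ^ r) (3 ^ s))) * oN =
      ((-(1 + dY)) ^ j * (-(1 + dX)) ^ i * oN) * (dX ^ i * dY ^ j) := by
    calc (dX ^ i * dY ^ j : Module.End (ZMod 3) (Fn3 (3 ^ r) (3 ^ s))) * oN
        = dX ^ i * (dY ^ j * oN) := mul_assoc _ _ _
      _ = (dX ^ i * (-(1 + dY)) ^ j) * oN * dY ^ j := by rw [e3]; simp only [mul_assoc]
      _ = (-(1 + dY)) ^ j * (dX ^ i * oN) * dY ^ j := by rw [e1]; simp only [mul_assoc]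
      _ = _ := by rw [e2]; simp only [mul_assoc]
  obtain ⟨G, hG⟩ : ∃ G, G = (dX ^ i * dY ^ j : Module.End (ZMod 3) (Fn3 (3 ^ r) (3 ^ s))) F := ⟨_, rfl⟩
  have hsh : ∀ i' j' : ℕ, 0 < i' + j' →
      (dX ^ i' * dY ^ j' : Module.End (ZMod 3) (Fn3 (3 ^ r) (3 ^ s))) G = 0 := by
    intro i' j' h0
    have e4 : (dX ^ i' * dY ^ j' : Module.End (ZMod 3) (Fn3 (3 ^ r) (3 ^ s))) * (dX ^ i * dY ^ j) =
        dX ^ (i' + i) * dY ^ (j' + j) := by
      rw [pow_add, pow_add, mul_assoc, ← mul_assoc (dY ^ j'), ← (hcXY.pow_pow i j').eq]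
      simp only [mul_assoc]
    rw [hG, ← Module.End.mul_apply, e4]
    refine hF _ _ ?_
    push_cast
    omega
  have hG0 : G ∈ (Wd3 0 : Submodule (ZMod 3) (Fn3 (3 ^ r) (3 ^ s))) := by
    intro i' j' h0
    exact hsh i' j' (by omega)
  have hconst := (hL r s).2.2.2.2.2.2.2.2.2.2.2.2.1 G hG0
  have hN : oN G = G := by
    funext x y
    rw [oN_apply, hconst (-x) (-y), hconst x y]
  have hX : dX G = 0 := by
    have := hsh 1 0 (by norm_num)
    rwa [pow_one, pow_zero, mul_one] at this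
  have hY : dY G = 0 := by
    have := hsh 0 1 (by norm_num)
    rwa [pow_one, pow_zero, one_mul] at this
  have hpw : ∀ (D : Module.End (ZMod 3) (Fn3 (3 ^ r) (3 ^ s))), D G = 0 → ∀ n : ℕ,
      ((-(1 + D)) ^ n : Module.End (ZMod 3) (Fn3 (3 ^ r) (3 ^ s))) G = (-1 : ZMod 3) ^ n • G := by
    intro D hD n
    induction n with
    | zero => rw [pow_zero, pow_zero, one_smul, Module.End.one_apply]
    | succ n ih =>
      rw [pow_succ, Module.End.mul_apply, LinearMap.neg_apply, LinearMap.add_apply, hD, add_zero,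
        Module.End.one_apply, map_neg, ih, pow_succ, mul_comm, mul_smul, neg_one_smul]
  rw [← Module.End.mul_apply, e, Module.End.mul_apply, ← hG, Module.End.mul_apply,
    Module.End.mul_apply, hN, hpw dX hX, map_smul, hpw dY hY, smul_smul, pow_add]

private theorem mem_lead (hL : S3Low0) (c : ZMod 3) (d : ℤ) (F : Fn3 (3 ^ r) (3 ^ s))
    (hF : F ∈ Wd3 d) (hc : ∀ n : ℕ, (n : ℤ) = d → (-1 : ZMod 3) ^ n = c) :
    oN F - c • F ∈ (Wd3 (d - 1) : Submodule (ZMod 3) (Fn3 (3 ^ r) (3 ^ s))) := by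
  intro i j hij
  have hN : oN F ∈ (Wd3 d : Submodule (ZMod 3) (Fn3 (3 ^ r) (3 ^ s))) := by
    have := lw_oN hL d F hF
    rwa [sub_zero] at this
  rw [map_sub, map_smul]
  rcases lt_or_eq_of_le (by omega : d ≤ (i : ℤ) + j) with h | h
  · rw [hN i j h, hF i j h, smul_zero, sub_zero]
  · rw [oN_lead hL d F hF i j h.symm, hc (i + j) (by push_cast; omega), sub_self]

private theorem oN_op (hT : S3Trm) (a b c d : ℤ) (ha : ¬ 3 ∣ a) (hd : ¬ 3 ∣ d) :
    (op3 (-a) (-b) c d : Module.End (ZMod 3) (Fn3 (3 ^ r) (3 ^ s))) = oN * op3 a b c d := by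
  apply LinearMap.ext
  intro F
  have h := ((hT (ZMod 3) r s F).1 (-1) 0 0 1 a b c d (by decide) (by decide) ha hd).symm
  have e1 : (-1 : ℤ) * a + 9 * 0 * c = -a := by ring
  have e2 : (-1 : ℤ) * b + 0 * d = -b := by ring
  have e3 : (0 : ℤ) * a + 1 * c = c := by ring
  have e4 : 9 * (0 : ℤ) * b + 1 * d = d := by ring
  rw [e1, e2, e3, e4] at h
  exact h

private theorem lw_oNm (hL : S3Low0) {P Q : Module.End (ZMod 3) (Fn3 (3 ^ r) (3 ^ s))}
    (h : Lw (P - Q) 2) : Lw (oN * P - oN * Q) 2 := by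
  rw [← mul_sub]
  exact lw_mul hL (lw_oN hL) h (by norm_num)

end

theorem hLwt (ht : S3Trm) (hl : S3Low0) (hn : S3Nf) (_h1 : S3Lw1) (_hb : S3Bb) : TLwt := by
  intro r s
  have c1 : ((1 : ℕ) : ZMod 3) = 1 := by decide
  have c2 : ((2 : ℕ) : ZMod 3) = -1 := by decide
  have c4 : ((4 : ℕ) : ZMod 3) = 1 := by decide
  have c5 : ((5 : ℕ) : ZMod 3) = -1 := by decide
  have c7 : ((7 : ℕ) : ZMod 3) = 1 := by decide
  have c8 : ((8 : ℕ) : ZMod 3) = -1 := by decide
  refine ⟨?_, lw_anti hl (lw_dX hl) dX_oN, lw_anti hl (lw_dY hl) dY_oN, ?_, ?_, ?_, ?_, ?_, ?_, ?_⟩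
  · apply LinearMap.ext
    intro F
    funext x y
    rw [Module.End.mul_apply, oN_apply, oN_apply, neg_neg, neg_neg, Module.End.one_apply]
  · intro d F hF hd
    have h := mem_lead hl 1 d F hF (fun n hn => by
      have : Even n := by
        rw [← hn] at hd
        exact_mod_cast hd
      exact this.neg_one_pow)
    rwa [one_smul] at h
  · intro d F hF hd
    have h := mem_lead hl (-1) d F hF (fun n hn => by
      have : Odd n := by
        rw [← hn] at hd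
        exact_mod_cast hd
      exact this.neg_one_pow)
    rwa [neg_one_smul, sub_neg_eq_add] at h
  · have h2 := nf2 (r := r) (s := s) hl hn 1 1 0 1 0 1 0 (by decide) (by decide)
      (by decide) (by decide) (by decide)
    rw [Nat.cast_zero, c1, zero_smul, one_smul, sub_zero] at h2
    exact h2
  · have h2 := nf2 (r := r) (s := s) hl hn (-4) 1 2 (-4) 0 2 4 (by decide) (by decide)
      (by decide) (by decide) (by decide)
    rw [c2, c4, one_smul, neg1_smul] at h2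
    have e : (op3 4 (-1) 2 (-4) : Module.End (ZMod 3) (Fn3 (3 ^ r) (3 ^ s))) =
        oN * op3 (-4) 1 2 (-4) := by
      have := oN_op (r := r) (s := s) ht (-4) 1 2 (-4) (by decide) (by decide)
      rwa [neg_neg] at this
    rw [e]
    refine lw_oNm hl ?_
    have e' : (op3 (-4) 1 2 (-4) - (1 - dX + dY) : Module.End (ZMod 3) (Fn3 (3 ^ r) (3 ^ s))) =
      op3 (-4) 1 2 (-4) - 1 - (-dX) - dY := by abel
    rw [e']
    exact h2
  · have h2 := nf2 (r := r) (s := s) hl hn (-4) (-1) (-2) (-4) 0 7 5 (by decide) (by decide)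
      (by decide) (by decide) (by decide)
    rw [c7, c5, one_smul, neg1_smul] at h2
    have e : (op3 4 1 (-2) (-4) : Module.End (ZMod 3) (Fn3 (3 ^ r) (3 ^ s))) =
        oN * op3 (-4) (-1) (-2) (-4) := by
      have := oN_op (r := r) (s := s) ht (-4) (-1) (-2) (-4) (by decide) (by decide)
      rwa [neg_neg, neg_neg] at this
    rw [e]
    refine lw_oNm hl ?_
    have e' : (op3 (-4) (-1) (-2) (-4) - (1 + dX - dY) :
        Module.End (ZMod 3) (Fn3 (3 ^ r) (3 ^ s))) =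
      op3 (-4) (-1) (-2) (-4) - 1 - dX - (-dY) := by abel
    rw [e']
    exact h2
  · have h2 := nf2 (r := r) (s := s) hl hn (-8) 1 2 (-2) 1 1 8 (by decide) (by decide)
      (by decide) (by decide) (by decide)
    rw [c1, c8, one_smul, neg1_smul] at h2
    have e : (op3 8 (-1) 2 (-2) : Module.End (ZMod 3) (Fn3 (3 ^ r) (3 ^ s))) =
        oN * op3 (-8) 1 2 (-2) := by
      have := oN_op (r := r) (s := s) ht (-8) 1 2 (-2) (by decide) (by decide)
      rwa [neg_neg] at this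
    rw [e]
    refine lw_oNm hl ?_
    have e' : (op3 (-8) 1 2 (-2) - (1 + dX - dY) : Module.End (ZMod 3) (Fn3 (3 ^ r) (3 ^ s))) =
      op3 (-8) 1 2 (-2) - 1 - dX - (-dY) := by abel
    rw [e']
    exact h2
  · have h2 := nf2 (r := r) (s := s) hl hn (-10) (-1) 2 2 1 1 1 (by decide) (by decide)
      (by decide) (by decide) (by decide)
    rw [c1, one_smul, one_smul] at h2
    have e : (op3 10 1 2 2 : Module.End (ZMod 3) (Fn3 (3 ^ r) (3 ^ s))) =
        oN * op3 (-10) (-1) 2 2 := by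
      have := oN_op (r := r) (s := s) ht (-10) (-1) 2 2 (by decide) (by decide)
      rwa [neg_neg, neg_neg] at this
    rw [e]
    refine lw_oNm hl ?_
    have e' : (op3 (-10) (-1) 2 2 - (1 + dX + dY) : Module.End (ZMod 3) (Fn3 (3 ^ r) (3 ^ s))) =
      op3 (-10) (-1) 2 2 - 1 - dX - dY := by abel
    rw [e']
    exact h2

end Pool.Agent.Helper55.TH3
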